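import Mathlib

/-!
Sunflowers, and the closure of a vertex set of the cube under balls around centres of sunflowers.
-/

namespace X225.Cd

open Finset

/-- sunflower lemma -/
theorem sunflower {α : Type*} [DecidableEq α] (k : ℕ) (hk : 1 ≤ k) : ∀ (t : ℕ)
    (F : Finset (Finset α)), (∀ S ∈ F, S.card = t) → t.factorial * k ^ t < F.card →
    ∃ (Y : Finset α) (P : Fin k → Finset α) (t' : ℕ), 1 ≤ t' ∧ (∀ i, (P i).card = t') ∧
      (∀ i j, i ≠ j → Disjoint (P i) (P j)) ∧ (∀ i, Disjoint Y (P i)) ∧ ∀ i, Y ∪ P i ∈ F := by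
  intro t
  induction t with
  | zero =>
    intro F hF hc
    exfalso
    have h1 : F ⊆ {∅} := by
      intro S hS
      rw [mem_singleton]
      exact card_eq_zero.1 (hF S hS)
    have h2 := card_le_card h1
    simp at hc h2
    omega
  | succ t ih =>
    intro F hF hc
    -- a largest pairwise disjoint subfamily
    obtain ⟨G, hG, hmax⟩ := exists_max_image (F.powerset.filter fun G =>
      ∀ S ∈ G, ∀ T ∈ G, S ≠ T → Disjoint S T) card ⟨∅, by simp⟩
    rw [mem_filter, mem_powerset] at hG
    obtain ⟨hGF, hGd⟩ := hG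
    by_cases hGk : k ≤ G.card
    · obtain ⟨G', hG', hG'c⟩ := exists_subset_card_eq hGk
      let e : Fin k ≃ G' := (G'.equivFinOfCardEq hG'c).symm
      refine ⟨∅, fun i => (e i : Finset α), t + 1, by omega, ?_, ?_, ?_, ?_⟩
      · intro i
        exact hF _ (hGF (hG' (e i).2))
      · intro i j hij
        apply hGd _ (hG' (e i).2) _ (hG' (e j).2)
        intro h
        exact hij (e.injective (Subtype.ext h))
      · intro i
        exact disjoint_empty_left _
      · intro i
        rw [empty_union]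
        exact hGF (hG' (e i).2)
    · push Not at hGk
      let B : Finset α := G.biUnion id
      have hB : B.card ≤ (t + 1) * k := by
        have h1 : B.card ≤ G.card * (t + 1) := by
          refine card_biUnion_le_card_mul _ _ _ fun S hS => ?_
          exact (hF S (hGF hS)).le
        calc B.card ≤ G.card * (t + 1) := h1
          _ ≤ k * (t + 1) := Nat.mul_le_mul_right _ hGk.le
          _ = (t + 1) * k := mul_comm _ _
      -- every member meets B
      have hmeet : ∀ S ∈ F, ∃ x ∈ B, x ∈ S := by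
        intro S hS
        by_contra hcon
        push Not at hcon
        have hSne : S.Nonempty := card_pos.1 (by rw [hF S hS]; omega)
        have hSG : S ∉ G := by
          intro h
          obtain ⟨x, hx⟩ := hSne
          exact hcon x (mem_biUnion.2 ⟨S, h, hx⟩) hx
        have h1 : insert S G ∈ F.powerset.filter fun G => ∀ S ∈ G, ∀ T ∈ G, S ≠ T →
            Disjoint S T := by
          rw [mem_filter, mem_powerset]
          refine ⟨insert_subset hS hGF, ?_⟩
          have hdis : ∀ T ∈ G, Disjoint S T := by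
            intro T hT
            rw [disjoint_left]
            intro x hx hxT
            exact hcon x (mem_biUnion.2 ⟨T, hT, hxT⟩) hx
          intro S₁ h₁ S₂ h₂ hne
          rw [mem_insert] at h₁ h₂
          rcases h₁ with rfl | h₁
          · rcases h₂ with rfl | h₂
            · exact absurd rfl hne
            · exact hdis _ h₂
          · rcases h₂ with rfl | h₂
            · exact (hdis _ h₁).symm
            · exact hGd _ h₁ _ h₂ hne
        have h2 := hmax _ h1
        rw [card_insert_of_notMem hSG] at h2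
        omega
      -- a popular point
      have hpop : ∃ x ∈ B, t.factorial * k ^ t < (F.filter fun S => x ∈ S).card := by
        by_contra hcon
        push Not at hcon
        have h1 : F ⊆ B.biUnion fun x => F.filter fun S => x ∈ S := by
          intro S hS
          obtain ⟨x, hx, hxS⟩ := hmeet S hS
          exact mem_biUnion.2 ⟨x, hx, mem_filter.2 ⟨hS, hxS⟩⟩
        have h2 := (card_le_card h1).trans (card_biUnion_le_card_mul _ _ _ hcon)
        have h3 : B.card * (t.factorial * k ^ t) ≤ (t + 1) * k * (t.factorial * k ^ t) :=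
          Nat.mul_le_mul_right _ hB
        have h4 : (t + 1) * k * (t.factorial * k ^ t) = (t + 1).factorial * k ^ (t + 1) := by
          rw [Nat.factorial_succ, pow_succ]
          ring
        omega
      obtain ⟨x, hx, hxc⟩ := hpop
      let F' := (F.filter fun S => x ∈ S).image fun S => S.erase x
      have hF' : ∀ S ∈ F', S.card = t ∧ x ∉ S ∧ insert x S ∈ F := by
        intro S hS
        rw [mem_image] at hS
        obtain ⟨S', hS', rfl⟩ := hS
        rw [mem_filter] at hS'
        refine ⟨?_, notMem_erase _ _, ?_⟩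
        · rw [card_erase_of_mem hS'.2, hF _ hS'.1]
          rfl
        · rw [insert_erase hS'.2]
          exact hS'.1
      have hF'c : F'.card = (F.filter fun S => x ∈ S).card := by
        apply card_image_of_injOn
        intro S hS T hT h
        rw [mem_coe, mem_filter] at hS hT
        change S.erase x = T.erase x at h
        rw [← insert_erase hS.2, ← insert_erase hT.2, h]
      obtain ⟨Y, P, t', ht', hP1, hP2, hP3, hP4⟩ := ih F' (fun S hS => (hF' S hS).1)
        (by rw [hF'c]; exact hxc)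
      refine ⟨insert x Y, P, t', ht', hP1, hP2, ?_, ?_⟩
      · intro i
        rw [disjoint_insert_left]
        refine ⟨?_, hP3 i⟩
        intro h
        exact (hF' _ (hP4 i)).2.1 (mem_union_right _ h)
      · intro i
        rw [insert_union]
        exact (hF' _ (hP4 i)).2.2

variable {n : ℕ}

/-- Hamming distance of the vertices of the cube; the vertices are the subsets of `Fin n`. -/
def hd (x y : Finset (Fin n)) : ℕ := (symmDiff x y).card

/-- Nonempty sets of vertices with pairwise distances at most `r`. -/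
def IsSimplex (r : ℕ) (σ : Finset (Finset (Fin n))) : Prop :=
  σ.Nonempty ∧ ∀ x ∈ σ, ∀ y ∈ σ, hd x y ≤ r

/-- The coordinates on which the vertices in `σ` do not all agree. -/
def nonconst (σ : Finset (Finset (Fin n))) : Finset (Fin n) :=
  univ.filter fun j => (∃ x ∈ σ, j ∈ x) ∧ ∃ x ∈ σ, j ∉ x

/-- The cubic dimension. -/
def cdim (σ : Finset (Finset (Fin n))) : ℕ := (nonconst σ).card

/-- the bound `s(r)` -/
def sB (r : ℕ) : ℕ := r ^ 2 * r.factorial * (4 * r + 4) ^ r

lemma mem_nonconst {σ : Finset (Finset (Fin n))} {j : Fin n} :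
    j ∈ nonconst σ ↔ (∃ x ∈ σ, j ∈ x) ∧ ∃ x ∈ σ, j ∉ x := by
  unfold nonconst
  rw [mem_filter]
  simp only [mem_univ, true_and]

lemma card_symmDiff_le (s t : Finset (Fin n)) : (symmDiff s t).card ≤ s.card + t.card :=
  (card_le_card (symmDiff_le_sup (a := s) (b := t))).trans (card_union_le _ _)

lemma card_symmDiff_disj {s t : Finset (Fin n)} (h : Disjoint s t) :
    (symmDiff s t).card = s.card + t.card := by
  rw [h.symmDiff_eq_sup]
  exact card_union_of_disjoint h

lemma hd_comm (x y : Finset (Fin n)) : hd x y = hd y x := by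
  unfold hd
  rw [symmDiff_comm]

lemma hd_self (x : Finset (Fin n)) : hd x x = 0 := by
  unfold hd
  rw [symmDiff_self]
  rfl

/-- A simplex of large cubic dimension contains a sunflower. -/
theorem exists_sunflower {r : ℕ} {σ : Finset (Finset (Fin n))} (hσ : IsSimplex r σ)
    (hs : sB r < cdim σ) : ∃ (c : Finset (Fin n)) (t : ℕ) (P : Fin (4 * r + 4) → Finset (Fin n)),
      1 ≤ t ∧ (∀ i, (P i).card = t) ∧ (∀ i j, i ≠ j → Disjoint (P i) (P j)) ∧
      ∀ i, symmDiff c (P i) ∈ σ := by
  obtain ⟨⟨x₀, hx₀⟩, hdist⟩ := hσ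
  let F : ℕ → Finset (Finset (Fin n)) := fun t =>
    (σ.image fun x => symmDiff x₀ x).filter fun S => S.card = t
  have hmain : ∃ t, t.factorial * (4 * r + 4) ^ t < (F t).card := by
    by_contra hcon
    push Not at hcon
    have h1 : nonconst σ ⊆ (Icc 1 r).biUnion fun t => (F t).biUnion id := by
      intro j hj
      rw [mem_nonconst] at hj
      obtain ⟨⟨x, hx, hjx⟩, y, hy, hjy⟩ := hj
      obtain ⟨z, hz, hjz⟩ : ∃ z ∈ σ, j ∈ symmDiff x₀ z := by
        by_cases h : j ∈ x₀
        · exact ⟨y, hy, mem_symmDiff.2 (Or.inl ⟨h, hjy⟩)⟩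
        · exact ⟨x, hx, mem_symmDiff.2 (Or.inr ⟨hjx, h⟩)⟩
      rw [mem_biUnion]
      refine ⟨(symmDiff x₀ z).card, ?_, ?_⟩
      · rw [mem_Icc]
        exact ⟨card_pos.2 ⟨j, hjz⟩, hdist x₀ hx₀ z hz⟩
      · rw [mem_biUnion]
        refine ⟨symmDiff x₀ z, ?_, hjz⟩
        rw [mem_filter]
        exact ⟨mem_image_of_mem _ hz, rfl⟩
    have h2 : ∀ t ∈ Icc 1 r, ((F t).biUnion id).card ≤ r.factorial * (4 * r + 4) ^ r * r := by
      intro t ht
      rw [mem_Icc] at ht
      have h3 : ((F t).biUnion id).card ≤ (F t).card * t := by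
        refine card_biUnion_le_card_mul _ _ _ fun S hS => ?_
        rw [mem_filter] at hS
        exact hS.2.le
      refine h3.trans (Nat.mul_le_mul ((hcon t).trans ?_) ht.2)
      exact Nat.mul_le_mul (Nat.factorial_le ht.2) (Nat.pow_le_pow_right (by omega) ht.2)
    have h3 := (card_le_card h1).trans (card_biUnion_le_card_mul _ _ _ h2)
    rw [Nat.card_Icc, Nat.add_sub_cancel] at h3
    have h4 : r * (r.factorial * (4 * r + 4) ^ r * r) = sB r := by
      unfold sB
      ring
    unfold cdim at hs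
    omega
  obtain ⟨t, ht⟩ := hmain
  obtain ⟨Y, P, t', ht', hP1, hP2, hP3, hP4⟩ := sunflower (4 * r + 4) (by omega) t (F t)
    (fun S hS => (mem_filter.1 hS).2) ht
  refine ⟨symmDiff x₀ Y, t', P, ht', hP1, hP2, ?_⟩
  intro i
  have h1 := (mem_filter.1 (hP4 i)).1
  rw [mem_image] at h1
  obtain ⟨x, hx, he⟩ := h1
  have h2 : symmDiff Y (P i) = Y ∪ P i := (hP3 i).symmDiff_eq_sup
  rw [symmDiff_assoc, h2, ← he, symmDiff_symmDiff_cancel_left]
  exact hx

/-- Closedness: with enough petals of size `t` around `c` the set contains the ball of radius `t`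
around `c`. -/
def Closed (M : ℕ) (K : Set (Finset (Fin n))) : Prop :=
  ∀ (c : Finset (Fin n)) (t : ℕ) (P : Fin M → Finset (Fin n)), 1 ≤ t → (∀ i, (P i).card = t) →
    (∀ i j, i ≠ j → Disjoint (P i) (P j)) → (∀ i, symmDiff c (P i) ∈ K) →
    ∀ Q : Finset (Fin n), Q.card ≤ t → symmDiff c Q ∈ K

lemma closed_of_maximal {r : ℕ} (K : Finset (Finset (Fin n))) (hK : ∀ x ∈ K, ∀ y ∈ K, hd x y ≤ r)
    (hmax : ∀ z, (∀ y ∈ K, hd z y ≤ r) → z ∈ K) : Closed (2 * r + 2) (K : Set (Finset (Fin n))) := by
  intro c t P ht hP1 hP2 hP3 Q hQ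
  rw [mem_coe]
  apply hmax
  have h2t : 2 * t ≤ r := by
    let i₀ : Fin (2 * r + 2) := ⟨0, by omega⟩
    let i₁ : Fin (2 * r + 2) := ⟨1, by omega⟩
    have h1 := hK _ (hP3 i₀) _ (hP3 i₁)
    unfold hd at h1
    have h2 : symmDiff (symmDiff c (P i₀)) (symmDiff c (P i₁)) = symmDiff (P i₀) (P i₁) := by
      rw [symmDiff_comm c (P i₀), symmDiff_assoc, symmDiff_symmDiff_cancel_left]
    rw [h2, card_symmDiff_disj (hP2 i₀ i₁ (by simp [i₀, i₁])), hP1, hP1] at h1
    omega
  intro y hy
  let Y := symmDiff c y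
  have hYP : ∀ i, (symmDiff Y (P i)).card ≤ r := by
    intro i
    have h1 := hK _ (hP3 i) y hy
    unfold hd at h1
    have h2 : symmDiff (symmDiff c (P i)) y = symmDiff Y (P i) := by
      change _ = symmDiff (symmDiff c y) (P i)
      rw [symmDiff_assoc, symmDiff_assoc, symmDiff_comm (P i) y]
    rw [← h2]
    exact h1
  have hY : Y.card ≤ r + t := by
    let i₀ : Fin (2 * r + 2) := ⟨0, by omega⟩
    have h1 : symmDiff (symmDiff Y (P i₀)) (P i₀) = Y := symmDiff_symmDiff_cancel_right _ _
    have h2 := card_symmDiff_le (symmDiff Y (P i₀)) (P i₀)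
    rw [h1, hP1] at h2
    have := hYP i₀
    omega
  obtain ⟨i, hi⟩ : ∃ i, Disjoint Y (P i) := by
    by_contra hcon
    push Not at hcon
    have h1 : ∀ i, ∃ j, j ∈ Y ∧ j ∈ P i := by
      intro i
      have := hcon i
      rw [not_disjoint_iff] at this
      exact this
    choose f hf1 hf2 using h1
    have hinj : Function.Injective f := by
      intro i j hij
      by_contra hne
      exact disjoint_left.1 (hP2 i j hne) (hf2 i) (hij ▸ hf2 j)
    have h2 := card_le_card_of_injOn f (fun i _ => hf1 i) (s := univ) hinj.injOn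
    rw [card_univ, Fintype.card_fin] at h2
    omega
  have h1 := hYP i
  rw [card_symmDiff_disj hi, hP1] at h1
  have h2 : hd (symmDiff c Q) y ≤ Y.card + Q.card := by
    unfold hd
    have h3 : symmDiff (symmDiff c Q) y = symmDiff Y Q := by
      change _ = symmDiff (symmDiff c y) Q
      rw [symmDiff_assoc, symmDiff_assoc, symmDiff_comm Q y]
    rw [h3]
    exact card_symmDiff_le _ _
  omega

/-- the closure -/
def cl (M : ℕ) (σ : Finset (Finset (Fin n))) : Set (Finset (Fin n)) :=
  ⋂₀ {K | Closed M K ∧ (σ : Set (Finset (Fin n))) ⊆ K}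

lemma closed_cl (M : ℕ) (σ : Finset (Finset (Fin n))) : Closed M (cl M σ) := by
  intro c t P h1 h2 h3 h4 Q hQ K hK
  exact hK.1 c t P h1 h2 h3 (fun i => h4 i K hK) Q hQ

lemma subset_cl (M : ℕ) (σ : Finset (Finset (Fin n))) :
    (σ : Set (Finset (Fin n))) ⊆ cl M σ := fun _ hx _ hK => hK.2 hx

lemma cl_subset {M : ℕ} {σ : Finset (Finset (Fin n))} {K : Set (Finset (Fin n))}
    (h1 : Closed M K) (h2 : (σ : Set (Finset (Fin n))) ⊆ K) : cl M σ ⊆ K :=
  fun _ hx => hx K ⟨h1, h2⟩

lemma cl_mono (M : ℕ) {σ τ : Finset (Finset (Fin n))} (h : σ ⊆ τ) : cl M σ ⊆ cl M τ :=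
  cl_subset (closed_cl _ _) (fun _ hx => subset_cl M τ (h hx))

lemma cl_insert (M : ℕ) {σ : Finset (Finset (Fin n))} {v : Finset (Fin n)} (h : v ∈ cl M σ) :
    cl M (insert v σ) = cl M σ := by
  apply Set.Subset.antisymm
  · refine cl_subset (closed_cl _ _) ?_
    intro x hx
    rw [mem_coe, mem_insert] at hx
    rcases hx with rfl | hx
    · exact h
    · exact subset_cl M σ hx
  · exact cl_mono M (subset_insert _ _)

/-- the closure of a simplex has small diameter -/
lemma cl_dist {r : ℕ} {σ : Finset (Finset (Fin n))} (hσ : IsSimplex r σ) :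
    ∀ x ∈ cl (2 * r + 2) σ, ∀ y ∈ cl (2 * r + 2) σ, hd x y ≤ r := by
  classical
  obtain ⟨K, hK, hmax⟩ := exists_max_image (univ.filter fun K : Finset (Finset (Fin n)) =>
    σ ⊆ K ∧ ∀ x ∈ K, ∀ y ∈ K, hd x y ≤ r) card
    ⟨σ, mem_filter.2 ⟨mem_univ _, Subset.rfl, hσ.2⟩⟩
  rw [mem_filter] at hK
  obtain ⟨-, hσK, hKd⟩ := hK
  have hcl : Closed (2 * r + 2) (K : Set (Finset (Fin n))) := by
    refine closed_of_maximal K hKd ?_
    intro z hz
    by_contra hcon
    have h1 : insert z K ∈ univ.filter fun K : Finset (Finset (Fin n)) =>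
        σ ⊆ K ∧ ∀ x ∈ K, ∀ y ∈ K, hd x y ≤ r := by
      rw [mem_filter]
      refine ⟨mem_univ _, hσK.trans (subset_insert _ _), ?_⟩
      intro x hx y hy
      rw [mem_insert] at hx hy
      rcases hx with rfl | hx
      · rcases hy with rfl | hy
        · rw [hd_self]
          exact Nat.zero_le _
        · exact hz y hy
      · rcases hy with rfl | hy
        · rw [hd_comm]
          exact hz x hx
        · exact hKd x hx y hy
    have h2 := hmax _ h1
    rw [card_insert_of_notMem hcon] at h2
    omega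
  have h1 : cl (2 * r + 2) σ ⊆ (K : Set (Finset (Fin n))) := cl_subset hcl (fun x hx => hσK hx)
  intro x hx y hy
  exact hKd x (h1 hx) y (h1 hy)

end X225.Cd
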