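import Pool.Agent.X225.Cd.Match
import Pool.Agent.X225.Cd.Sun

/-!
Simplices of large cubic dimension are matched perfectly.
-/

namespace X225.Cd

open Finset

variable {n : ℕ}

/-- the smallest subcube containing `σ` -/
def cb (σ : Finset (Finset (Fin n))) : Set (Finset (Fin n)) := {v | ∀ j, ∃ x ∈ σ, (j ∈ x ↔ j ∈ v)}

lemma cb_mono {σ τ : Finset (Finset (Fin n))} (h : σ ⊆ τ) : cb σ ⊆ cb τ := by
  intro v hv j
  obtain ⟨x, hx, hj⟩ := hv j
  exact ⟨x, h hx, hj⟩

lemma cb_insert {σ : Finset (Finset (Fin n))} {v : Finset (Fin n)} (h : v ∈ cb σ) :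
    cb (insert v σ) = cb σ := by
  apply Set.Subset.antisymm
  · intro w hw j
    obtain ⟨x, hx, hj⟩ := hw j
    rw [mem_insert] at hx
    rcases hx with rfl | hx
    · obtain ⟨y, hy, hj'⟩ := h j
      exact ⟨y, hy, hj'.trans hj⟩
    · exact ⟨x, hx, hj⟩
  · exact cb_mono (subset_insert _ _)

lemma nonconst_mono {σ τ : Finset (Finset (Fin n))} (h : σ ⊆ τ) : nonconst σ ⊆ nonconst τ := by
  intro j hj
  rw [mem_nonconst] at hj ⊢
  obtain ⟨⟨x, hx, hjx⟩, y, hy, hjy⟩ := hj
  exact ⟨⟨x, h hx, hjx⟩, y, h hy, hjy⟩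

lemma nonconst_insert {σ : Finset (Finset (Fin n))} {v : Finset (Fin n)} (h : v ∈ cb σ) :
    nonconst (insert v σ) = nonconst σ := by
  apply Subset.antisymm
  · intro j hj
    rw [mem_nonconst] at hj ⊢
    obtain ⟨⟨x, hx, hjx⟩, y, hy, hjy⟩ := hj
    rw [mem_insert] at hx hy
    obtain ⟨z, hz, hjz⟩ := h j
    constructor
    · rcases hx with rfl | hx
      · exact ⟨z, hz, hjz.2 hjx⟩
      · exact ⟨x, hx, hjx⟩
    · rcases hy with rfl | hy
      · exact ⟨z, hz, fun h' => hjy (hjz.1 h')⟩
      · exact ⟨y, hy, hjy⟩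
  · exact nonconst_mono (subset_insert _ _)

open Classical in
/-- the largest radius of a ball around `v` inside `K` -/
noncomputable def tt (K : Set (Finset (Fin n))) (v : Finset (Fin n)) : ℕ :=
  Nat.findGreatest (fun t => ∀ Q : Finset (Fin n), Q.card ≤ t → symmDiff v Q ∈ K) n

lemma tt_spec {K : Set (Finset (Fin n))} {v : Finset (Fin n)} (h : v ∈ K) :
    ∀ Q : Finset (Fin n), Q.card ≤ tt K v → symmDiff v Q ∈ K := by
  classical
  refine Nat.findGreatest_spec (P := fun t => ∀ Q : Finset (Fin n), Q.card ≤ t →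
    symmDiff v Q ∈ K) (Nat.zero_le n) ?_
  intro Q hQ
  rw [Nat.le_zero, card_eq_zero] at hQ
  subst hQ
  have : symmDiff v ∅ = v := symmDiff_bot v
  rw [this]
  exact h

lemma le_tt {K : Set (Finset (Fin n))} {v : Finset (Fin n)} {t : ℕ} (ht : t ≤ n)
    (h : ∀ Q : Finset (Fin n), Q.card ≤ t → symmDiff v Q ∈ K) : t ≤ tt K v := by
  classical
  exact Nat.le_findGreatest ht h

lemma tt_le (K : Set (Finset (Fin n))) (v : Finset (Fin n)) : tt K v ≤ n := by
  classical
  exact Nat.findGreatest_le n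

/-- the order on the vertices attached to `K` -/
noncomputable def rk (o : Finset (Fin n) → ℕ) (K : Set (Finset (Fin n))) (v : Finset (Fin n)) :
    ℕ ×ₗ ℕ := toLex (n - tt K v, o v)

lemma rk_injective {o : Finset (Fin n) → ℕ} (ho : Function.Injective o)
    (K : Set (Finset (Fin n))) : Function.Injective (rk o K) := by
  intro v w h
  apply ho
  have := congrArg (fun x => (ofLex x).2) h
  exact this

lemma sB_ge (r : ℕ) : r * (4 * r + 4) ≤ sB r := by
  unfold sB
  rcases Nat.eq_zero_or_pos r with rfl | hr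
  · simp
  · have h1 : 1 ≤ r.factorial := Nat.one_le_iff_ne_zero.2 (Nat.factorial_ne_zero r)
    have h2 : r ≤ r ^ 2 := Nat.le_self_pow (by norm_num) r
    have h3 : 4 * r + 4 ≤ (4 * r + 4) ^ r := Nat.le_self_pow (by omega) _
    calc r * (4 * r + 4) ≤ r ^ 2 * (4 * r + 4) ^ r := Nat.mul_le_mul h2 h3
      _ = r ^ 2 * 1 * (4 * r + 4) ^ r := by ring
      _ ≤ r ^ 2 * r.factorial * (4 * r + 4) ^ r := by
        gcongr

/-- disjoint sets of size `T` avoiding a given set -/
lemma exists_disjoint_sets {M T : ℕ} (B : Finset (Fin n)) (h : B.card + M * T ≤ n) :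
    ∃ Q : Fin M → Finset (Fin n), (∀ i, (Q i).card = T) ∧
      (∀ i j, i ≠ j → Disjoint (Q i) (Q j)) ∧ ∀ i, Disjoint B (Q i) := by
  classical
  have hc : Fintype.card (Fin M × Fin T) ≤ Fintype.card (Bᶜ : Finset (Fin n)) := by
    rw [Fintype.card_prod, Fintype.card_fin, Fintype.card_fin, Fintype.card_coe, card_compl,
      Fintype.card_fin]
    omega
  obtain ⟨e⟩ := Function.Embedding.nonempty_of_card_le hc
  refine ⟨fun i => univ.image fun k => (e (i, k) : Fin n), ?_, ?_, ?_⟩
  · intro i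
    rw [card_image_of_injective, card_univ, Fintype.card_fin]
    intro k l hkl
    have := e.injective (Subtype.ext hkl)
    exact (Prod.ext_iff.1 this).2
  · intro i j hij
    rw [disjoint_left]
    intro x hx hx'
    rw [mem_image] at hx hx'
    obtain ⟨k, _, rfl⟩ := hx
    obtain ⟨l, _, he⟩ := hx'
    have := e.injective (Subtype.ext he)
    exact hij (Prod.ext_iff.1 this).1.symm
  · intro i
    rw [disjoint_left]
    intro x hx hx'
    rw [mem_image] at hx'
    obtain ⟨k, _, rfl⟩ := hx'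
    exact (mem_compl.1 (e (i, k)).2) hx

theorem active {r : ℕ} (o : Finset (Fin n) → ℕ) {σ : Finset (Finset (Fin n))}
    (hσ : IsSimplex r σ) (hs : sB r < cdim σ) :
    ∃ v, v ∈ cl (2 * r + 2) (σ.filter fun w => rk o (cl (2 * r + 2) σ) v <
        rk o (cl (2 * r + 2) σ) w) ∧
      v ∈ cb (σ.filter fun w => rk o (cl (2 * r + 2) σ) v < rk o (cl (2 * r + 2) σ) w) := by
  classical
  obtain ⟨c, t, P, ht, hP1, hP2, hP3⟩ := exists_sunflower hσ hs
  set K := cl (2 * r + 2) σ with hK
  have hKc : Closed (2 * r + 2) K := closed_cl _ _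
  have hKd := cl_dist hσ
  rw [← hK] at hKd
  have hPK : ∀ i, symmDiff c (P i) ∈ K := fun i => subset_cl _ _ (hP3 i)
  -- the ball around `c`
  have hemb : ∀ (g : Fin (2 * r + 2) → Fin (4 * r + 4)), Function.Injective g →
      ∀ Q : Finset (Fin n), Q.card ≤ t → symmDiff c Q ∈ K := by
    intro g hg
    exact hKc c t (fun i => P (g i)) ht (fun i => hP1 _)
      (fun i j hij => hP2 _ _ fun h => hij (hg h)) (fun i => hPK _)
  have hball := hemb (Fin.castLE (by omega)) (Fin.castLE_injective _)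
  have hcK : c ∈ K := by
    have := hball ∅ (by simp)
    have h2 : symmDiff c ∅ = c := symmDiff_bot c
    rwa [h2] at this
  have hn : ∀ s : Finset (Fin n), s.card ≤ n := fun s => by
    have := card_le_univ s
    rwa [Fintype.card_fin] at this
  have htn : t ≤ n := by
    rw [← hP1 ⟨0, by omega⟩]
    exact hn _
  set T := tt K c with hT
  have htT : t ≤ T := le_tt htn hball
  have hTr : T ≤ r := by
    obtain ⟨Q, -, hQ⟩ := exists_subset_card_eq (s := (univ : Finset (Fin n))) (n := T)
      (by rw [card_univ, Fintype.card_fin]; exact tt_le K c)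
    have h1 := tt_spec hcK Q hQ.le
    have h2 := hKd _ hcK _ h1
    unfold hd at h2
    rw [symmDiff_symmDiff_cancel_left, hQ] at h2
    exact h2
  have hnr : 2 * (r * (2 * r + 2)) ≤ n := by
    have h1 := sB_ge r
    have h2 : cdim σ ≤ n := hn _
    have h3 : 2 * (r * (2 * r + 2)) = r * (4 * r + 4) := by ring
    omega
  -- few petals have large radius
  let I : Finset (Fin (4 * r + 4)) := univ.filter fun i => T ≤ tt K (symmDiff c (P i))
  have hI : I.card < 2 * r + 2 := by
    by_contra hcon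
    push Not at hcon
    obtain ⟨I', hI', hI'c⟩ := exists_subset_card_eq hcon
    let e : Fin (2 * r + 2) ≃ I' := (I'.equivFinOfCardEq hI'c).symm
    let g : Fin (2 * r + 2) → Fin (4 * r + 4) := fun i => (e i : Fin (4 * r + 4))
    have hg : Function.Injective g := fun i j h => e.injective (Subtype.ext h)
    have hgT : ∀ i, T ≤ tt K (symmDiff c (P (g i))) := fun i =>
      (mem_filter.1 (hI' (e i).2)).2
    let B : Finset (Fin n) := univ.biUnion fun i => P (g i)
    have hB : B.card ≤ (2 * r + 2) * t := by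
      have := card_biUnion_le_card_mul (univ : Finset (Fin (2 * r + 2))) (fun i => P (g i)) t
        (fun i _ => (hP1 _).le)
      rwa [card_univ, Fintype.card_fin] at this
    have hroom : B.card + (2 * r + 2) * T ≤ n := by
      have h1 : (2 * r + 2) * t ≤ (2 * r + 2) * r := Nat.mul_le_mul_left _ (htT.trans hTr)
      have h2 : (2 * r + 2) * T ≤ (2 * r + 2) * r := Nat.mul_le_mul_left _ hTr
      have h3 : (2 * r + 2) * r = r * (2 * r + 2) := mul_comm _ _
      omega
    obtain ⟨Q, hQ1, hQ2, hQ3⟩ := exists_disjoint_sets B hroom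
    have hPB : ∀ i, P (g i) ⊆ B := fun i x hx => mem_biUnion.2 ⟨i, mem_univ _, hx⟩
    have hPQ : ∀ i j, Disjoint (P (g i)) (Q j) := fun i j => (hQ3 j).mono_left (hPB i)
    have hbig := hKc c (t + T) (fun i => P (g i) ∪ Q i) (by omega) (fun i => by
        rw [card_union_of_disjoint (hPQ i i), hP1, hQ1]) (by
        intro i j hij
        rw [disjoint_union_left, disjoint_union_right, disjoint_union_right]
        exact ⟨⟨hP2 _ _ fun h => hij (hg h), hPQ i j⟩, (hPQ j i).symm, hQ2 i j hij⟩) (by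
        intro i
        have h1 : symmDiff (P (g i)) (Q i) = P (g i) ∪ Q i := (hPQ i i).symmDiff_eq_sup
        rw [← h1, ← symmDiff_assoc]
        refine tt_spec (hPK _) _ ?_
        rw [hQ1]
        exact hgT i)
    have h1 : t + T ≤ n := by
      have h2 : 1 * (t + T) ≤ (2 * r + 2) * (t + T) := Nat.mul_le_mul_right _ (by omega)
      have h3 : (2 * r + 2) * (t + T) ≤ (2 * r + 2) * (r + r) :=
        Nat.mul_le_mul_left _ (add_le_add (htT.trans hTr) hTr)
      have h4 : (2 * r + 2) * (r + r) = 2 * (r * (2 * r + 2)) := by ring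
      omega
    have h2 := le_tt h1 hbig
    rw [← hT] at h2
    omega
  -- many petals above `c`
  have hIc : 2 * r + 2 ≤ (Iᶜ).card := by
    rw [card_compl, Fintype.card_fin]
    omega
  obtain ⟨I', hI', hI'c⟩ := exists_subset_card_eq hIc
  let e : Fin (2 * r + 2) ≃ I' := (I'.equivFinOfCardEq hI'c).symm
  let g : Fin (2 * r + 2) → Fin (4 * r + 4) := fun i => (e i : Fin (4 * r + 4))
  have hg : Function.Injective g := fun i j h => e.injective (Subtype.ext h)
  have hgmem : ∀ i, symmDiff c (P (g i)) ∈ σ.filter fun w => rk o K c < rk o K w := by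
    intro i
    rw [mem_filter]
    refine ⟨hP3 _, ?_⟩
    have h1 : g i ∉ I := mem_compl.1 (hI' (e i).2)
    have h2 : tt K (symmDiff c (P (g i))) < T := by
      by_contra hcon
      push Not at hcon
      exact h1 (mem_filter.2 ⟨mem_univ _, hcon⟩)
    refine Prod.Lex.toLex_lt_toLex.2 (Or.inl ?_)
    change n - tt K c < n - tt K (symmDiff c (P (g i)))
    have h3 := tt_le K c
    omega
  refine ⟨c, ?_, ?_⟩
  · have h1 := closed_cl (2 * r + 2) (σ.filter fun w => rk o K c < rk o K w) c t
      (fun i => P (g i)) ht (fun i => hP1 _) (fun i j hij => hP2 _ _ fun h => hij (hg h))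
      (fun i => subset_cl _ _ (hgmem i)) ∅ (by simp)
    have h2 : symmDiff c ∅ = c := symmDiff_bot c
    rwa [h2] at h1
  · intro j
    let i₀ : Fin (2 * r + 2) := ⟨0, by omega⟩
    let i₁ : Fin (2 * r + 2) := ⟨1, by omega⟩
    have hne : g i₀ ≠ g i₁ := by
      intro h
      have := hg h
      simp [i₀, i₁] at this
    have hdis := hP2 _ _ hne
    by_cases hj : j ∈ P (g i₀)
    · refine ⟨_, hgmem i₁, ?_⟩
      have : j ∉ P (g i₁) := disjoint_left.1 hdis hj
      rw [mem_symmDiff]
      tauto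
    · refine ⟨_, hgmem i₀, ?_⟩
      rw [mem_symmDiff]
      tauto

/-- The simplices of cubic dimension `p`. -/
def IsFace (n r p : ℕ) (σ : Finset (Finset (Fin n))) : Prop := IsSimplex r σ ∧ cdim σ = p

lemma isFace_convex {r p : ℕ} (σ ρ τ : Finset (Finset (Fin n))) (h1 : σ ⊆ ρ) (h2 : ρ ⊆ τ)
    (hσ : IsFace n r p σ) (hτ : IsFace n r p τ) : IsFace n r p ρ := by
  refine ⟨⟨hσ.1.1.mono h1, fun x hx y hy => hτ.1.2 x (h2 hx) y (h2 hy)⟩, ?_⟩
  have h3 := card_le_card (nonconst_mono h1)
  have h4 := card_le_card (nonconst_mono h2)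
  have h5 := hσ.2
  have h6 := hτ.2
  unfold cdim at h5 h6 ⊢
  omega

theorem exact_main (𝕜 : Type*) [Field 𝕜] {o : Finset (Fin n) → ℕ} (ho : Function.Injective o)
    {r p : ℕ} (hp : sB r < p) (m : ℕ) (z : Finset (Finset (Fin n)) → 𝕜)
    (hz : ∀ σ, z σ ≠ 0 → IsFace n r p σ ∧ σ.card = m) (hd : rbd 𝕜 o (IsFace n r p) z = 0) :
    ∃ w, (∀ σ, w σ ≠ 0 → IsFace n r p σ ∧ σ.card = m + 1) ∧ rbd 𝕜 o (IsFace n r p) w = z := by
  obtain ⟨a, key, h⟩ := exists_matching (V := Finset (Fin n)) (K := Set (Finset (Fin n)))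
    (O := ℕ ×ₗ ℕ) (fun σ => cl (2 * r + 2) σ ∩ cb σ) (cl (2 * r + 2)) (rk o) Set.ncard
    (Fintype.card (Finset (Fin n))) (IsFace n r p)
    (fun σ τ h => Set.inter_subset_inter (cl_mono _ h) (cb_mono h))
    (fun σ v h => by
      change cl _ (insert v σ) ∩ cb (insert v σ) = _
      rw [cl_insert _ h.1, cb_insert h.2])
    (fun σ v h => cl_insert _ h.1)
    (fun σ τ h => by
      rcases (cl_mono (2 * r + 2) h).eq_or_ssubset with h1 | h1
      · exact Or.inl h1
      · exact Or.inr (Set.ncard_lt_ncard h1 (Set.toFinite _)))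
    (rk_injective ho)
    (fun k => by
      have := Set.ncard_le_card k
      rwa [Nat.card_eq_fintype_card] at this)
    (fun σ v h hσ => by
      obtain ⟨h1, h2⟩ := h
      have h3 : v ∈ cl (2 * r + 2) σ := cl_mono _ (erase_subset _ _) h1
      have h4 : v ∈ cb σ := cb_mono (erase_subset _ _) h2
      have h5 : cdim (insert v σ) = p := by
        unfold cdim
        rw [nonconst_insert h4]
        exact hσ.2
      have h6 : cdim (σ.erase v) = p := by
        by_cases hv : v ∈ σ
        · have := nonconst_insert h2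
          rw [insert_erase hv] at this
          unfold cdim
          rw [← this]
          exact hσ.2
        · rw [erase_eq_of_notMem hv]
          exact hσ.2
      have hdist := cl_dist hσ.1
      refine ⟨⟨⟨insert_nonempty _ _, ?_⟩, h5⟩, ⟨⟨?_, ?_⟩, h6⟩⟩
      · have h7 : ∀ x ∈ insert v σ, x ∈ cl (2 * r + 2) σ := by
          intro x hx
          rw [mem_insert] at hx
          rcases hx with rfl | hx
          · exact h3
          · exact subset_cl _ _ hx
        intro x hx y hy
        exact hdist x (h7 x hx) y (h7 y hy)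
      · by_contra hcon
        rw [not_nonempty_iff_eq_empty] at hcon
        rw [hcon] at h6
        unfold cdim nonconst at h6
        simp at h6
        omega
      · intro x hx y hy
        exact hσ.1.2 x (mem_of_mem_erase hx) y (mem_of_mem_erase hy))
    (fun σ hσ => by
      obtain ⟨v, h1, h2⟩ := active o hσ.1 (by rw [hσ.2]; exact hp)
      exact ⟨v, h1, h2⟩)
  exact h.exact ho isFace_convex m z hz hd

end X225.Cd
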