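import Pool.Agent.X225.Cd.Morse

/-!
A perfect acyclic matching from a closure operator and orders depending on the closure.
-/

namespace X225.Cd

open Finset

variable {V : Type*} [DecidableEq V] [Fintype V] [Inhabited V]

theorem exists_matching {K O : Type*} [LinearOrder O] (J : Finset V → Set V) (κ : Finset V → K)
    (ρ : K → V → O) (size : K → ℕ) (N : ℕ) (S : Finset V → Prop)
    (J1 : ∀ σ τ, σ ⊆ τ → J σ ⊆ J τ) (J2 : ∀ σ v, v ∈ J σ → J (insert v σ) = J σ)
    (K1 : ∀ σ v, v ∈ J σ → κ (insert v σ) = κ σ)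
    (K2 : ∀ σ τ, σ ⊆ τ → κ σ = κ τ ∨ size (κ σ) < size (κ τ))
    (hρ : ∀ k, Function.Injective (ρ k)) (hN : ∀ k, size k ≤ N)
    (S1 : ∀ σ v, v ∈ J (σ.erase v) → S σ → S (insert v σ) ∧ S (σ.erase v))
    (hact : ∀ σ, S σ → ∃ v, v ∈ J (σ.filter fun w => ρ (κ σ) v < ρ (κ σ) w)) :
    ∃ (a : Finset V → V) (key : Finset V → ℕ ×ₗ O), Matching S a key := by
  classical
  let abv : Finset V → V → Finset V := fun σ v => σ.filter fun w => ρ (κ σ) v < ρ (κ σ) w
  have abv_sub : ∀ σ v, abv σ v ⊆ σ.erase v := by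
    intro σ v w hw
    rw [mem_filter] at hw
    exact mem_erase.2 ⟨fun h => lt_irrefl _ (h ▸ hw.2), hw.1⟩
  have hmemE : ∀ σ v, v ∈ J (abv σ v) → v ∈ J (σ.erase v) := fun σ v h => J1 _ _ (abv_sub σ v) h
  have κ_ins : ∀ σ v, v ∈ J (abv σ v) → κ (insert v σ) = κ σ := fun σ v h =>
    K1 σ v (J1 _ _ (erase_subset _ _) (hmemE σ v h))
  have κ_ers : ∀ σ v, v ∈ J (abv σ v) → κ (σ.erase v) = κ σ := by
    intro σ v h
    by_cases hv : v ∈ σ
    · have := K1 (σ.erase v) v (hmemE σ v h)
      rw [insert_erase hv] at this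
      exact this.symm
    · rw [erase_eq_of_notMem hv]
  let act : Finset V → Finset V := fun σ => univ.filter fun v => v ∈ J (abv σ v)
  have hmem : ∀ σ v, v ∈ act σ ↔ v ∈ J (abv σ v) := by
    intro σ v
    simp only [act, mem_filter, mem_univ, true_and]
  have act_ins : ∀ σ v, v ∈ act σ → act (insert v σ) = act σ := by
    intro σ v hv
    rw [hmem] at hv
    ext w
    rw [hmem, hmem]
    have h1 : J (abv (insert v σ) w) = J (abv σ w) := by
      have h2 : abv (insert v σ) w = if ρ (κ σ) w < ρ (κ σ) v then insert v (abv σ w)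
          else abv σ w := by
        simp only [abv, κ_ins σ v hv, filter_insert]
      rw [h2]
      split_ifs with h3
      · apply J2
        refine J1 _ _ ?_ hv
        intro x hx
        rw [mem_filter] at hx ⊢
        exact ⟨hx.1, h3.trans hx.2⟩
      · rfl
    rw [h1]
  have act_ers : ∀ σ v, v ∈ act σ → act (σ.erase v) = act σ := by
    intro σ v hv
    by_cases hvσ : v ∈ σ
    · have h1 : v ∈ act (σ.erase v) := by
        rw [hmem] at hv ⊢
        have h2 : abv (σ.erase v) v = abv σ v := by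
          simp only [abv, κ_ers σ v hv]
          ext x
          simp only [mem_filter, mem_erase]
          constructor
          · rintro ⟨⟨_, h3⟩, h4⟩
            exact ⟨h3, h4⟩
          · rintro ⟨h3, h4⟩
            exact ⟨⟨fun h => lt_irrefl _ (h ▸ h4), h3⟩, h4⟩
        rw [h2]
        exact hv
      have h2 := act_ins _ _ h1
      rw [insert_erase hvσ] at h2
      exact h2.symm
    · rw [erase_eq_of_notMem hvσ]
  have hne : ∀ σ, S σ → (act σ).Nonempty := by
    intro σ hσ
    obtain ⟨v, hv⟩ := hact σ hσ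
    exact ⟨v, (hmem σ v).2 hv⟩
  let a : Finset V → V := fun σ => if h : (act σ).Nonempty then
    Classical.choose (exists_min_image (act σ) (ρ (κ σ)) h) else default
  have ha : ∀ σ, S σ → a σ ∈ act σ ∧ ∀ v ∈ act σ, ρ (κ σ) (a σ) ≤ ρ (κ σ) v := by
    intro σ hσ
    have h := hne σ hσ
    have h1 : a σ = Classical.choose (exists_min_image (act σ) (ρ (κ σ)) h) := by
      change (if h : (act σ).Nonempty then _ else _) = _
      rw [dif_pos h]
    rw [h1]
    exact Classical.choose_spec (exists_min_image (act σ) (ρ (κ σ)) h)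
  have ha_congr : ∀ σ τ, S σ → S τ → act σ = act τ → κ σ = κ τ → a σ = a τ := by
    intro σ τ hσ hτ h1 h2
    obtain ⟨h3, h4⟩ := ha σ hσ
    obtain ⟨h5, h6⟩ := ha τ hτ
    apply hρ (κ σ)
    apply le_antisymm
    · exact h4 _ (h1 ▸ h5)
    · rw [h2]
      exact h6 _ (h1 ▸ h3)
  have hS : ∀ σ, S σ → S (insert (a σ) σ) ∧ S (σ.erase (a σ)) := fun σ hσ =>
    S1 σ (a σ) (hmemE σ _ ((hmem _ _).1 (ha σ hσ).1)) hσ
  let key : Finset V → ℕ ×ₗ O := fun τ => toLex (N - size (κ τ), ρ (κ τ) (a τ))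
  refine ⟨a, key, fun σ hσ => (hS σ hσ).1, fun σ hσ => (hS σ hσ).2, ?_, ?_, ?_⟩
  · intro σ hσ
    exact ha_congr _ _ (hS σ hσ).1 hσ (act_ins σ _ (ha σ hσ).1)
      (κ_ins σ _ ((hmem _ _).1 (ha σ hσ).1))
  · intro σ hσ
    exact ha_congr _ _ (hS σ hσ).2 hσ (act_ers σ _ (ha σ hσ).1)
      (κ_ers σ _ ((hmem _ _).1 (ha σ hσ).1))
  · intro τ hτ haτ ρ' hρ' haρ hne' hsub hcard
    have h1 := ha τ hτ
    have h2 : κ (τ.erase (a τ)) = κ τ := κ_ers τ _ ((hmem _ _).1 h1.1)
    rcases K2 _ _ hsub with h3 | h3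
    · rw [h2] at h3
      refine Prod.Lex.toLex_lt_toLex.2 (Or.inr ⟨?_, ?_⟩)
      · change N - size (κ ρ') = N - size (κ τ)
        rw [h3]
      · change ρ (κ ρ') (a ρ') < ρ (κ τ) (a τ)
        have h4 : a τ ∈ act (τ.erase (a τ)) := by
          rw [act_ers τ _ h1.1]
          exact h1.1
        have h5 : a τ ∈ act ρ' := by
          rw [hmem] at h4 ⊢
          refine J1 _ _ ?_ h4
          intro x hx
          rw [mem_filter] at hx ⊢
          refine ⟨hsub hx.1, ?_⟩
          have := hx.2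
          rw [h2] at this
          rw [← h3]
          exact this
        have h6 := (ha ρ' hρ').2 _ h5
        rw [← h3] at h6 ⊢
        refine lt_of_le_of_ne h6 ?_
        intro h7
        have h8 := hρ _ h7
        apply hne'
        rw [h8] at haρ
        have h9 : τ ⊆ ρ' := by
          rw [← insert_erase haτ]
          exact insert_subset haρ hsub
        exact (eq_of_subset_of_card_le h9 hcard.le).symm
    · rw [h2] at h3
      refine Prod.Lex.toLex_lt_toLex.2 (Or.inl ?_)
      change N - size (κ ρ') < N - size (κ τ)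
      have := hN (κ ρ')
      omega

end X225.Cd
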