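import Mathlib

/-!
Simplicial chains as functions on finite sets, the boundary, the boundary relative to a convex set
of simplices, and the lemma that a perfect acyclic matching makes the relative complex exact.
-/

namespace X225.Cd

open Finset

variable {V : Type*} [DecidableEq V] [Fintype V]

/-- orientation sign: `(-1) ^ (number of elements of σ before v)` -/
def sgn (𝕜 : Type*) [Field 𝕜] (o : V → ℕ) (σ : Finset V) (v : V) : 𝕜 :=
  (-1) ^ (σ.filter fun w => o w < o v).card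

/-- The simplicial boundary.  A chain is given by its coefficients; the coefficient of `σ` in the
boundary of `z` is the sum over the vertices `v` outside `σ` of the coefficients of `σ ∪ {v}`, with
the sign `(-1) ^ (number of elements of σ before v)`. -/
def bd (𝕜 : Type*) [Field 𝕜] (o : V → ℕ) : (Finset V → 𝕜) →ₗ[𝕜] (Finset V → 𝕜) where
  toFun z σ := ∑ v ∈ σᶜ, sgn 𝕜 o σ v * z (insert v σ)
  map_add' x y := by
    ext σ
    rw [Pi.add_apply, ← sum_add_distrib]
    exact sum_congr rfl fun v _ => by rw [Pi.add_apply]; ring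
  map_smul' c x := by
    ext σ
    rw [RingHom.id_apply, Pi.smul_apply, smul_eq_mul, mul_sum]
    exact sum_congr rfl fun v _ => by rw [Pi.smul_apply, smul_eq_mul]; ring

variable {𝕜 : Type*} [Field 𝕜] {o : V → ℕ}

lemma bd_apply (z : Finset V → 𝕜) (σ : Finset V) :
    bd 𝕜 o z σ = ∑ v ∈ σᶜ, sgn 𝕜 o σ v * z (insert v σ) := rfl

lemma sgn_ne_zero (σ : Finset V) (v : V) : sgn 𝕜 o σ v ≠ 0 :=
  pow_ne_zero _ (neg_ne_zero.2 one_ne_zero)

lemma sgn_insert_lt (σ : Finset V) {v w : V} (hv : v ∉ σ) (h : o v < o w) :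
    sgn 𝕜 o (insert v σ) w = - sgn 𝕜 o σ w := by
  unfold sgn
  rw [filter_insert, if_pos h, card_insert_of_notMem (fun h' => hv (mem_filter.1 h').1), pow_succ]
  ring

lemma sgn_insert_ge (σ : Finset V) {v w : V} (h : ¬ o v < o w) :
    sgn 𝕜 o (insert v σ) w = sgn 𝕜 o σ w := by
  unfold sgn
  rw [filter_insert, if_neg h]

lemma bd_bd (ho : Function.Injective o) (z : Finset V → 𝕜) : bd 𝕜 o (bd 𝕜 o z) = 0 := by
  ext σ
  rw [bd_apply, Pi.zero_apply]
  have h1 : ∀ v ∈ σᶜ, sgn 𝕜 o σ v * bd 𝕜 o z (insert v σ) =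
      ∑ w ∈ σᶜ.erase v, sgn 𝕜 o σ v * (sgn 𝕜 o (insert v σ) w * z (insert w (insert v σ))) := by
    intro v _
    rw [bd_apply, mul_sum, compl_insert]
  rw [sum_congr rfl h1, sum_sigma']
  refine sum_involution (fun p _ => ⟨p.2, p.1⟩) ?_ ?_ ?_ ?_
  · rintro ⟨v, w⟩ hp
    simp only [mem_sigma, mem_compl, mem_erase] at hp
    obtain ⟨hv, hwv, hw⟩ := hp
    have h2 : insert w (insert v σ) = insert v (insert w σ) := Finset.insert_comm w v σ
    simp only
    rw [h2]
    rcases lt_or_gt_of_ne (fun h => hwv (ho h) : o w ≠ o v) with h | h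
    · rw [sgn_insert_lt σ hw h, sgn_insert_ge σ (not_lt.2 h.le)]
      ring
    · rw [sgn_insert_lt σ hv h, sgn_insert_ge σ (not_lt.2 h.le)]
      ring
  · rintro ⟨v, w⟩ hp _ he
    simp only [mem_sigma, mem_compl, mem_erase] at hp
    simp only [Sigma.mk.injEq, heq_eq_eq] at he
    exact hp.2.1 he.1
  · rintro ⟨v, w⟩ hp
    simp only [mem_sigma, mem_compl, mem_erase] at hp ⊢
    exact ⟨hp.2.2, fun h => hp.2.1 h.symm, hp.1⟩
  · rintro ⟨v, w⟩ _
    rfl

open Classical in
/-- The boundary relative to a set `S` of simplices: faces outside `S` are discarded. -/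
noncomputable def rbd (𝕜 : Type*) [Field 𝕜] (o : V → ℕ) (S : Finset V → Prop) :
    (Finset V → 𝕜) →ₗ[𝕜] (Finset V → 𝕜) where
  toFun z σ := if S σ then bd 𝕜 o z σ else 0
  map_add' x y := by
    ext σ
    simp only [map_add, Pi.add_apply]
    split_ifs <;> simp
  map_smul' c x := by
    ext σ
    simp only [map_smul, Pi.smul_apply, RingHom.id_apply]
    split_ifs <;> simp

lemma rbd_of_mem {S : Finset V → Prop} (z : Finset V → 𝕜) {σ : Finset V} (h : S σ) :
    rbd 𝕜 o S z σ = bd 𝕜 o z σ := by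
  unfold rbd
  simp only [LinearMap.coe_mk, AddHom.coe_mk, if_pos h]

lemma rbd_of_not_mem {S : Finset V → Prop} (z : Finset V → 𝕜) {σ : Finset V} (h : ¬ S σ) :
    rbd 𝕜 o S z σ = 0 := by
  unfold rbd
  simp only [LinearMap.coe_mk, AddHom.coe_mk, if_neg h]

lemma exists_of_bd_ne_zero {z : Finset V → 𝕜} {σ : Finset V} (h : bd 𝕜 o z σ ≠ 0) :
    ∃ v, v ∉ σ ∧ z (insert v σ) ≠ 0 := by
  by_contra hcon
  push Not at hcon
  apply h
  rw [bd_apply]
  refine sum_eq_zero fun v hv => ?_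
  rw [hcon v (mem_compl.1 hv), mul_zero]

lemma rbd_rbd (ho : Function.Injective o) {S : Finset V → Prop}
    (hconv : ∀ σ ρ τ, σ ⊆ ρ → ρ ⊆ τ → S σ → S τ → S ρ) (z : Finset V → 𝕜)
    (hz : ∀ σ, z σ ≠ 0 → S σ) : rbd 𝕜 o S (rbd 𝕜 o S z) = 0 := by
  ext σ
  rw [Pi.zero_apply]
  by_cases hσ : S σ
  · rw [rbd_of_mem _ hσ]
    have h1 : bd 𝕜 o (rbd 𝕜 o S z) σ = bd 𝕜 o (bd 𝕜 o z) σ := by
      rw [bd_apply, bd_apply]
      refine sum_congr rfl fun v hv => ?_
      by_cases h : S (insert v σ)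
      · rw [rbd_of_mem _ h]
      · rw [rbd_of_not_mem _ h]
        have : bd 𝕜 o z (insert v σ) = 0 := by
          by_contra hne
          obtain ⟨w, _, hw⟩ := exists_of_bd_ne_zero hne
          exact h (hconv σ _ _ (subset_insert _ _) (subset_insert _ _) hσ (hz _ hw))
        rw [this]
    rw [h1, bd_bd ho, Pi.zero_apply]
  · rw [rbd_of_not_mem _ hσ]

section Morse

variable (S : Finset V → Prop) (a : Finset V → V) {O : Type*} [LinearOrder O] (key : Finset V → O)

/-- The hypotheses of a perfect acyclic matching `σ ↔ σ ∆ {a σ}` of `S`. -/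
structure Matching : Prop where
  ins : ∀ σ, S σ → S (insert (a σ) σ)
  ers : ∀ σ, S σ → S (σ.erase (a σ))
  a_ins : ∀ σ, S σ → a (insert (a σ) σ) = a σ
  a_ers : ∀ σ, S σ → a (σ.erase (a σ)) = a σ
  acyc : ∀ τ, S τ → a τ ∈ τ → ∀ ρ, S ρ → a ρ ∈ ρ → ρ ≠ τ → τ.erase (a τ) ⊆ ρ →
    ρ.card = τ.card → key ρ < key τ

variable {S a key}

lemma Matching.inj (h : Matching S a key) {m : ℕ} (w : Finset V → 𝕜)
    (hw : ∀ σ, w σ ≠ 0 → S σ ∧ σ.card = m ∧ a σ ∈ σ)
    (hz : ∀ τ, S τ → τ.card = m → a τ ∈ τ → bd 𝕜 o w (τ.erase (a τ)) = 0) : w = 0 := by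
  classical
  by_contra hne
  obtain ⟨τ₀, hτ₀⟩ := Function.ne_iff.1 hne
  obtain ⟨τ, hτ, hmin⟩ := exists_min_image (univ.filter fun σ => w σ ≠ 0) key
    ⟨τ₀, mem_filter.2 ⟨mem_univ _, hτ₀⟩⟩
  rw [mem_filter] at hτ
  obtain ⟨hS, hc, ha⟩ := hw τ hτ.2
  have h1 := hz τ hS hc ha
  rw [bd_apply, sum_eq_single (a τ)] at h1
  · rw [insert_erase ha] at h1
    rcases mul_eq_zero.1 h1 with h2 | h2
    · exact sgn_ne_zero _ _ h2
    · exact hτ.2 h2
  · intro v hv hva
    by_contra hcon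
    have h2 : w (insert v (τ.erase (a τ))) ≠ 0 := fun h3 => hcon (by rw [h3, mul_zero])
    obtain ⟨hS', hc', ha'⟩ := hw _ h2
    have hne' : insert v (τ.erase (a τ)) ≠ τ := by
      intro h3
      have h4 : v ∈ τ := by
        rw [← h3]
        exact mem_insert_self _ _
      exact (mem_compl.1 hv) (mem_erase.2 ⟨hva, h4⟩)
    have h3 := h.acyc τ hS ha _ hS' ha' hne' (subset_insert _ _) (hc'.trans hc.symm)
    exact absurd (hmin _ (mem_filter.2 ⟨mem_univ _, h2⟩)) (not_le.2 h3)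
  · intro h2
    exact absurd (mem_compl.2 (notMem_erase _ _)) h2

theorem Matching.exact (h : Matching S a key) (ho : Function.Injective o)
    (hconv : ∀ σ ρ τ, σ ⊆ ρ → ρ ⊆ τ → S σ → S τ → S ρ) (m : ℕ) (z : Finset V → 𝕜)
    (hz : ∀ σ, z σ ≠ 0 → S σ ∧ σ.card = m) (hd : rbd 𝕜 o S z = 0) :
    ∃ w, (∀ σ, w σ ≠ 0 → S σ ∧ σ.card = m + 1) ∧ rbd 𝕜 o S w = z := by
  classical
  -- upper simplices with `m + 1` vertices and lower simplices with `m` vertices
  let U := {σ : Finset V // S σ ∧ σ.card = m + 1 ∧ a σ ∈ σ}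
  let L := {σ : Finset V // S σ ∧ σ.card = m ∧ a σ ∉ σ}
  let e : U ≃ L :=
    { toFun := fun τ => ⟨τ.1.erase (a τ.1), h.ers _ τ.2.1, by
        rw [card_erase_of_mem τ.2.2.2, τ.2.2.1]
        rfl, by
        rw [h.a_ers _ τ.2.1]
        exact notMem_erase _ _⟩
      invFun := fun σ => ⟨insert (a σ.1) σ.1, h.ins _ σ.2.1, by
        rw [card_insert_of_notMem σ.2.2.2, σ.2.2.1], by
        rw [h.a_ins _ σ.2.1]
        exact mem_insert_self _ _⟩
      left_inv := fun τ => by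
        apply Subtype.ext
        change insert (a (τ.1.erase (a τ.1))) (τ.1.erase (a τ.1)) = τ.1
        rw [h.a_ers _ τ.2.1, insert_erase τ.2.2.2]
      right_inv := fun σ => by
        apply Subtype.ext
        change (insert (a σ.1) σ.1).erase (a (insert (a σ.1) σ.1)) = σ.1
        rw [h.a_ins _ σ.2.1, erase_insert σ.2.2.2] }
  let ext : (U → 𝕜) →ₗ[𝕜] (Finset V → 𝕜) :=
    { toFun := fun f σ => if hσ : S σ ∧ σ.card = m + 1 ∧ a σ ∈ σ then f ⟨σ, hσ⟩ else 0
      map_add' := fun f g => by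
        ext σ
        simp only [Pi.add_apply]
        split_ifs <;> simp
      map_smul' := fun c f => by
        ext σ
        simp only [Pi.smul_apply, RingHom.id_apply]
        split_ifs <;> simp }
  have hext : ∀ f σ, ext f σ ≠ 0 → S σ ∧ σ.card = m + 1 ∧ a σ ∈ σ := by
    intro f σ hne
    by_contra hcon
    apply hne
    change (if hσ : S σ ∧ σ.card = m + 1 ∧ a σ ∈ σ then f ⟨σ, hσ⟩ else 0) = 0
    rw [dif_neg hcon]
  let D : (U → 𝕜) →ₗ[𝕜] (L → 𝕜) :=
    { toFun := fun f σ => bd 𝕜 o (ext f) σ.1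
      map_add' := fun f g => by
        ext σ
        simp only [map_add, Pi.add_apply]
      map_smul' := fun c f => by
        ext σ
        simp only [map_smul, Pi.smul_apply, RingHom.id_apply] }
  have hDinj : Function.Injective D := by
    rw [← LinearMap.ker_eq_bot, LinearMap.ker_eq_bot']
    intro f hf
    have h1 : ext f = 0 := by
      refine h.inj (o := o) (m := m + 1) _ (hext f) ?_
      intro τ hS hc ha
      exact congrFun hf (e ⟨τ, hS, hc, ha⟩)
    ext τ
    have h2 := congrFun h1 τ.1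
    change (if hσ : S τ.1 ∧ τ.1.card = m + 1 ∧ a τ.1 ∈ τ.1 then f ⟨τ.1, hσ⟩ else 0) = 0 at h2
    rw [dif_pos τ.2] at h2
    exact h2
  have hfin : Module.finrank 𝕜 (U → 𝕜) = Module.finrank 𝕜 (L → 𝕜) := by
    rw [Module.finrank_fintype_fun_eq_card, Module.finrank_fintype_fun_eq_card]
    exact Fintype.card_congr e
  have hDsurj : Function.Surjective D :=
    (LinearMap.injective_iff_surjective_of_finrank_eq_finrank hfin).1 hDinj
  obtain ⟨f, hf⟩ := hDsurj fun σ => z σ.1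
  refine ⟨ext f, fun σ hσ => ⟨(hext f σ hσ).1, (hext f σ hσ).2.1⟩, ?_⟩
  -- the difference
  have hsup : ∀ σ, rbd 𝕜 o S (ext f) σ ≠ 0 → S σ ∧ σ.card = m := by
    intro σ hσ
    by_cases hS : S σ
    · rw [rbd_of_mem _ hS] at hσ
      obtain ⟨v, hv, hne⟩ := exists_of_bd_ne_zero hσ
      have h1 := (hext f _ hne).2.1
      rw [card_insert_of_notMem hv] at h1
      exact ⟨hS, by omega⟩
    · exact absurd (rbd_of_not_mem _ hS) hσ
  have hzero : rbd 𝕜 o S (z - rbd 𝕜 o S (ext f)) = 0 := by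
    rw [map_sub, hd, rbd_rbd ho hconv _ fun σ hσ => (hext f σ hσ).1, sub_zero]
  have hfinal : z - rbd 𝕜 o S (ext f) = 0 := by
    refine h.inj (o := o) (m := m) _ ?_ ?_
    · intro σ hσ
      have h1 : S σ ∧ σ.card = m := by
        by_contra hcon
        apply hσ
        rw [Pi.sub_apply]
        have h2 : z σ = 0 := by
          by_contra h3
          exact hcon (hz σ h3)
        have h3 : rbd 𝕜 o S (ext f) σ = 0 := by
          by_contra h4
          exact hcon (hsup σ h4)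
        rw [h2, h3, sub_zero]
      refine ⟨h1.1, h1.2, ?_⟩
      by_contra hcon
      apply hσ
      rw [Pi.sub_apply, rbd_of_mem _ h1.1]
      have h2 := congrFun hf ⟨σ, h1.1, h1.2, hcon⟩
      change bd 𝕜 o (ext f) σ = z σ at h2
      rw [h2, sub_self]
    · intro τ hS _ _
      have h2 := congrFun hzero (τ.erase (a τ))
      rw [rbd_of_mem _ (h.ers τ hS)] at h2
      exact h2
  exact (sub_eq_zero.1 hfinal).symm

end Morse

end X225.Cd
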